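import Pool.Agent.K1H14.CI.Surf

/-!
# A gap theorem for zero-cycles on K3 surfaces

Let `X` be a K3 surface over a field `k`, for instance a number field or its algebraic closure, all
of whose divisor classes are defined over `k` (over a number field this holds after a finite
extension, which does not matter for the vanishing of `CH^2(X)_{0,ℚ}`).  Let `ρ` be the Picard
number, `t ∈ {0, 1, 2, …, ∞}` the dimension of `CH^2(X)_{0,ℚ}`, and let `E` be the algebra of the
correspondences from `X` to `X` modulo the degenerate ones, that is, modulo numerically trivial
correspondences and exterior products: it is the endomorphism algebra of the transcendental motive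
`t_2(X)` modulo numerical equivalence, and it is a field for K3 surfaces in characteristic zero by
Zarhin, as a subalgebra of the field of the Hodge endomorphisms of the transcendental lattice.

**Theorem.** The quotients `dim CH(X^n)_ℚ / dim (CH(X^n)_ℚ modulo numerical equivalence)` converge
to a limit `N ∈ {1, 2, …, ∞}`, and

  `N ≥ 1 + (22 - ρ) t / [E : ℚ]`.

In particular **`CH^2(X)_ℚ = ℚ`, or `N ≥ 23 - ρ`** (and `23 - ρ ≥ 3` in characteristic zero).  So the
conjecture of Bloch and Beilinson holds for `X` as soon as
`dim CH(X^n)_ℚ < (23 - ρ - ε) dim (CH(X^n)_ℚ modulo numerical equivalence)` for some `ε > 0` and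
infinitely many `n`; the conjecture predicts, for all `n`, that the two dimensions are equal.
Moreover `t ≤ N - 1`, if `[E : ℚ] ≤ 22 - ρ` (which holds for all K3 surfaces, because `E` acts on the
transcendental lattice).

The theorem is stated and proved for all surfaces `X` without numerically trivial divisor classes
for which `E` is a division algebra, with the total Betti number `b` of `X` instead of `24`:
`[E : ℚ] + (b - ρ - 2) t ≤ [E : ℚ] N`.

## What is used, and what is new

The convergence and the integrality of the limit `N` is the author's result
`MP_dd457d_ag.IndexOfChowGroups`, which uses as tools the theorems of the starting files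
`Pool.Agent.Y129` and `Pool.Agent.Y133` on the ranks of idempotent correspondences on the powers of
a variety.  New here is the lower bound for `N` (files `Gap.lean`, `GapMain.lean`, `Surf.lean`):

* correspondences `Γ_1, …, Γ_s` from `X` to a power `Y` of `X` and `Γ'_1, …, Γ'_s` from `Y` to `X`
  which are dual modulo degenerate correspondences (`IsSystem`); a maximal system generates all
  correspondences from `X` to `Y` over `E`, so `s [E : ℚ]` is at least the multiplicity of `t_2(X)`
  in `h(Y)`, which is asymptotically equal to `(b - ρ - 2)` times the dimension of `CH(Y)` modulo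
  numerical equivalence;
* if the ideal of the numerically trivial correspondences from `X` to `X` is nilpotent (which is
  the case if `N` is finite), then `CH^2(X)_0 ⊕ … ⊕ CH^2(X)_0 → CH(Y)`, with `s` summands, is
  injective, so that the numerically trivial classes on `Y` have dimension at least `s t`;
* `t ≥ [E : ℚ]` if `t ≠ 0`;
* the Chow groups of a surface without numerically trivial divisor classes.
-/

open CategoryTheory AlgebraicGeometry Filter Topology

open scoped ENNReal

universe u v w

namespace Pool.Agent.Results.MP_9207e0_ag.GapForZeroCycles

open Pool.Agent.H914 Pool.Agent.H914.VarClass Pool.Agent.R903 Pool.Agent.Y129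
  Pool.Agent.K1H14.CI

/-- **The gap theorem for zero-cycles on K3 surfaces.** Let `C` be the rational Chow groups on a
class `𝒱` of smooth projective varieties over a field `k` which is closed under products, `W` a Weil
cohomology theory, and `X` a surface in `𝒱` without numerically trivial divisor classes such that the
algebra `E` of the correspondences from `X` to `X` modulo degenerate correspondences is a division
algebra (`IsDivision`), for instance a K3 surface in characteristic zero with all divisor classes
defined over `k`; then `finrank W.K (W.H X) = 24`.  Let `transDim C X = [E : ℚ]`,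
`zeroCyc C X = CH_0(X)_{0,ℚ}` with the dimension `zeroCycDim C X` in `ℕ ∪ {∞}`, and
`picardNumber C X = ρ`. -/
theorem result {k : Type u} [Field k] {𝒱 : VarClass k} (C : ChowTheory.{u, v} 𝒱)
    (hC : HasDegree C) (W : WeilTheory.{u, v, w} C) (X : 𝒱.Obj) (hdim : X.dim = 2)
    (hpic : ∀ D ∈ C.gr X 1, D ∈ numTriv C X → D = 0) (hdiv : IsDivision C X) :
    ∃ N : ℕ∞, Tendsto (fun n => (chowDim C (pw X n) : ℝ≥0∞) / numDim C (pw X n)) atTop
      (𝓝 (N : ℝ≥0∞)) ∧
    (transDim C X : ℕ∞) + ((Module.finrank W.K (W.H X) - (picardNumber C X + 2) : ℕ) : ℕ∞) *
      zeroCycDim C X ≤ transDim C X * N ∧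
    (zeroCyc C X ≠ ⊥ →
      ((Module.finrank W.K (W.H X) - (picardNumber C X + 2) : ℕ) : ℕ∞) + 1 ≤ N) :=
  surf_gap hC W hdim hpic hdiv

end Pool.Agent.Results.MP_9207e0_ag.GapForZeroCycles
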